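import Pool.Agent.Q326.SP.Asym

set_option autoImplicit false

/-!
# Sparse PCA: polynomials of slowly growing degree detect the spike above the spectral threshold

Definitions: `Data`, `nullLaw`, `columnLaw`, `spikeProb`, `plantedLaw`, `value` are in
`Pool.Agent.Q326.SP.Model`, `StronglySeparates` is in `Pool.Agent.Q326.SP.Asym`.

Let `β, γ > 0`, `n / N → γ`, `λ = β / √γ > 1`, `k → ∞`, `k / n → 0`.  The polynomial is the sum of
the products of the entries of `Y` over the edges of all cycles with `l` rows and `l` columns in
the complete bipartite graph on the rows and columns.  For fixed `l` the mean under the planted law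
is `(n)_l (N)_l (β / n) ^ l`, the mean under the null law is `0`, and both variances are at most
`(2 l + o(1)) λ ^ (- 2 l)` times the square of this mean as `n → ∞`:
pairs of disjoint cycles cancel with the square of the mean, every cycle has `2 l` descriptions, and
two different cycles which have a common row or column contribute only
`O (1 / n + 1 / k)` times the square of the mean, since the number of rows at which all entries of
the two cycles are common is smaller than the number of common columns.  Finally `l → ∞` slowly.
-/

namespace Pool.Agent.Results.MP_05f51d_lc.AnySlowDegree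

open Filter Topology Pool.Agent.Q326.SP

/-- **Above the spectral threshold polynomials of arbitrarily slowly growing degree strongly
separate the planted and the null law.** -/
theorem result {β γ : ℝ} (hβ : 0 < β) (hγ : 0 < γ) (hlam : 1 < β / √γ) {N : ℕ → ℕ} {k : ℕ → ℝ}
    (hN : Tendsto (fun n : ℕ => (n : ℝ) / N n) atTop (𝓝 γ)) (hk : Tendsto k atTop atTop)
    (hkn : Tendsto (fun n : ℕ => k n / n) atTop (𝓝 0)) {D : ℕ → ℕ}
    (hD : Tendsto D atTop atTop) :
    ∃ f : ∀ n, MvPolynomial (Fin n × Fin (N n)) ℝ, (∀ n, (f n).totalDegree ≤ D n) ∧
      StronglySeparates β k N f :=
  main hβ hγ hlam hN hk hkn hD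

end Pool.Agent.Results.MP_05f51d_lc.AnySlowDegree
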